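import Mathlib

/-!
Definitions for the fractional form of the Aharoni-Zerbib problem on covering and packing
`(k-1)`-sets in `k`-uniform hypergraphs on the vertex set `Fin n`.
-/

namespace Pool.Agent.Helper37.FracTuza

/-- `M` is a packing in `H`: a subfamily of `H` in which two distinct members share fewer than
`k - 1` vertices. The largest size of a packing is `ν^(k-1)(H)`. -/
def IsPacking {n : ℕ} (k : ℕ) (H M : Finset (Finset (Fin n))) : Prop :=
  M ⊆ H ∧ ∀ e ∈ M, ∀ f ∈ M, e ≠ f → (e ∩ f).card < k - 1

/-- `w` is a fractional cover of `H` by `(k-1)`-sets: the weights are nonnegative and every edge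
receives total weight at least `1` from its `(k-1)`-element subsets. -/
def IsFractionalCover {n : ℕ} (k : ℕ) (H : Finset (Finset (Fin n))) (w : Finset (Fin n) → ℝ) :
    Prop :=
  (∀ S, 0 ≤ w S) ∧ ∀ e ∈ H, 1 ≤ ∑ S ∈ e.powersetCard (k - 1), w S

/-- The total weight of `w` on all `(k-1)`-element sets of vertices. The least total weight of a
fractional cover is `τ*^(k-1)(H)`. -/
def totalWeight {n : ℕ} (k : ℕ) (w : Finset (Fin n) → ℝ) : ℝ :=
  ∑ S ∈ (Finset.univ : Finset (Fin n)).powersetCard (k - 1), w S

end Pool.Agent.Helper37.FracTuza
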