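import Mathlib

/-!
A finite linear programming duality statement, from the separation theorem.
-/

namespace Pool.Agent.Helper37.FracTuza

theorem lp_dual {ι κ : Type} [Fintype ι] [Fintype κ] [DecidableEq ι] [DecidableEq κ]
    (A : ι → κ → ℝ) (C : ℝ) (hC : 0 < C)
    (h : ∀ a : ι → ℝ, (∀ i, 0 ≤ a i) → (∀ j, ∑ i, a i * A i j ≤ 1) → ∑ i, a i ≤ C) :
    ∃ w : κ → ℝ, (∀ j, 0 ≤ w j) ∧ (∀ i, 1 ≤ ∑ j, A i j * w j) ∧ ∑ j, w j ≤ C := by
  by_contra hcon
  push Not at hcon
  set K : Set (κ → ℝ) := {w | (∀ j, 0 ≤ w j) ∧ ∑ j, w j ≤ C} with hK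
  set L : (κ → ℝ) →ₗ[ℝ] (ι → ℝ) :=
    { toFun := fun w i => ∑ j, A i j * w j
      map_add' := by
        intro x y; funext i; simp [mul_add, Finset.sum_add_distrib]
      map_smul' := by
        intro c x; funext i; simp only [Pi.smul_apply, smul_eq_mul, RingHom.id_apply]
        rw [Finset.mul_sum]; exact Finset.sum_congr rfl (fun j _ => by ring) } with hL
  have hLapp : ∀ w i, L w i = ∑ j, A i j * w j := fun w i => rfl
  have hLc : Continuous L := L.continuous_of_finiteDimensional
  have hKconv : Convex ℝ K := by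
    intro x hx y hy s t hs ht hst
    refine ⟨fun j => ?_, ?_⟩
    · simp only [Pi.add_apply, Pi.smul_apply, smul_eq_mul]
      exact add_nonneg (mul_nonneg hs (hx.1 j)) (mul_nonneg ht (hy.1 j))
    · simp only [Pi.add_apply, Pi.smul_apply, smul_eq_mul, Finset.sum_add_distrib,
        ← Finset.mul_sum]
      have h1 := mul_le_mul_of_nonneg_left hx.2 hs
      have h2 := mul_le_mul_of_nonneg_left hy.2 ht
      calc s * ∑ j, x j + t * ∑ j, y j ≤ s * C + t * C := add_le_add h1 h2
        _ = C := by rw [← add_mul, hst, one_mul]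
  have hKcomp : IsCompact K := by
    have hsub : K ⊆ Set.Icc (0 : κ → ℝ) (fun _ => C) := by
      intro x hx
      refine ⟨fun j => hx.1 j, fun j => ?_⟩
      calc x j ≤ ∑ j, x j := Finset.single_le_sum (fun i _ => hx.1 i) (Finset.mem_univ j)
        _ ≤ C := hx.2
    refine IsCompact.of_isClosed_subset isCompact_Icc ?_ hsub
    have : K = (⋂ j, {w : κ → ℝ | 0 ≤ w j}) ∩ {w | ∑ j, w j ≤ C} := by
      ext w; simp [hK]
    rw [this]
    refine IsClosed.inter (isClosed_iInter fun j => ?_) ?_
    · exact isClosed_le continuous_const (continuous_apply j)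
    · exact isClosed_le (continuous_finsetSum _ fun j _ => continuous_apply j) continuous_const
  set Q : Set (ι → ℝ) := {y | ∀ i, 1 ≤ y i} with hQ
  have hQconv : Convex ℝ Q := by
    intro x hx y hy s t hs ht hst i
    simp only [Pi.add_apply, Pi.smul_apply, smul_eq_mul]
    have h1 := mul_le_mul_of_nonneg_left (hx i) hs
    have h2 := mul_le_mul_of_nonneg_left (hy i) ht
    linarith
  have hQcl : IsClosed Q := by
    have : Q = ⋂ i, {y : ι → ℝ | 1 ≤ y i} := by ext y; simp [hQ]
    rw [this]
    exact isClosed_iInter fun i => isClosed_le continuous_const (continuous_apply i)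
  have hdisj : Disjoint (L '' K) Q := by
    rw [Set.disjoint_left]
    rintro y ⟨w, hw, rfl⟩ hy
    exact absurd hw.2 (not_le.mpr (hcon w hw.1 (fun i => hy i)))
  obtain ⟨f, u, v, h1, h2, h3⟩ := geometric_hahn_banach_compact_closed
    (hKconv.linear_image L) (hKcomp.image hLc) hQconv hQcl hdisj
  set a : ι → ℝ := fun i => f (Pi.single i 1) with ha
  have hf : ∀ y, f y = ∑ i, a i * y i := by
    intro y
    conv_lhs => rw [← Finset.univ_sum_single y]
    rw [map_sum]
    refine Finset.sum_congr rfl fun i _ => ?_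
    have : (Pi.single i (y i) : ι → ℝ) = (y i) • (Pi.single i (1 : ℝ) : ι → ℝ) := by
      ext j
      by_cases hj : j = i
      · subst hj; simp
      · simp [hj]
    rw [this, map_smul, smul_eq_mul, mul_comm]
  have hu : 0 < u := by
    have := h1 (L 0) ⟨0, ⟨fun j => le_refl _, by simpa using hC.le⟩, rfl⟩
    simpa using this
  have hsum : u < ∑ i, a i := by
    have := h3 (fun _ => 1) (fun i => le_refl _)
    rw [hf] at this
    simp only [mul_one] at this
    linarith
  have hapos : ∀ i, 0 ≤ a i := by
    intro i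
    by_contra hneg
    push Not at hneg
    -- move far in direction i
    set s : ℝ := ∑ i, a i with hs
    have hs0 : 0 < s := lt_trans hu hsum
    set t : ℝ := s / (-(a i)) with ht
    have ht0 : 0 ≤ t := div_nonneg hs0.le (by linarith)
    have hmem : (fun j => 1 + t * (Pi.single i (1 : ℝ) : ι → ℝ) j) ∈ Q := by
      intro j
      show 1 ≤ 1 + t * (Pi.single i (1 : ℝ) : ι → ℝ) j
      have : 0 ≤ (Pi.single i (1 : ℝ) : ι → ℝ) j := by
        by_cases hj : j = i
        · subst hj; simp
        · simp [hj]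
      have := mul_nonneg ht0 this
      linarith
    have h4 := h3 _ hmem
    rw [hf] at h4
    have h5 : ∑ j, a j * (1 + t * (Pi.single i (1 : ℝ) : ι → ℝ) j) = s + t * a i := by
      have : ∀ j, a j * (1 + t * (Pi.single i (1 : ℝ) : ι → ℝ) j)
          = a j + t * (a j * (Pi.single i (1 : ℝ) : ι → ℝ) j) := fun j => by ring
      simp_rw [this, Finset.sum_add_distrib, ← Finset.mul_sum]
      congr 2
      simp [Pi.single_apply]
    rw [h5] at h4
    have h6 : t * a i = -s := by
      rw [ht, div_neg, neg_mul, div_mul_cancel₀ _ (ne_of_lt hneg)]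
    rw [h6] at h4
    linarith
  have hb : ∀ j, C * ∑ i, a i * A i j < u := by
    intro j
    have := h1 (L (Pi.single j C)) ⟨Pi.single j C, ⟨fun j' => ?_, ?_⟩, rfl⟩
    · rw [hf] at this
      have h7 : ∀ i, L (Pi.single j C) i = A i j * C := by
        intro i
        rw [hLapp]
        simp [Pi.single_apply]
      simp_rw [h7] at this
      calc C * ∑ i, a i * A i j = ∑ i, a i * (A i j * C) := by
            rw [Finset.mul_sum]; exact Finset.sum_congr rfl (fun i _ => by ring)
        _ < u := this
    · by_cases hj : j' = j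
      · subst hj; simpa using hC.le
      · simp [hj]
    · simp
  have := h (fun i => C / u * a i) (fun i => mul_nonneg (div_nonneg hC.le hu.le) (hapos i)) ?_
  · rw [← Finset.mul_sum] at this
    have h8 : C < C / u * ∑ i, a i := by
      rw [div_mul_eq_mul_div, lt_div_iff₀ hu]
      exact mul_lt_mul_of_pos_left hsum hC
    linarith
  · intro j
    have h9 : ∑ i, C / u * a i * A i j = (C * ∑ i, a i * A i j) / u := by
      rw [Finset.mul_sum, Finset.sum_div]
      exact Finset.sum_congr rfl (fun i _ => by ring)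
    rw [h9, div_le_one hu]
    exact (hb j).le

end Pool.Agent.Helper37.FracTuza
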