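import Mathlib
import Pool.Agent.Helper37.FracTuza.Defs

/-!
The weight of a fractional packing is at most `(k+1)/2` times the size of a largest packing.
-/

namespace Pool.Agent.Helper37.FracTuza

open Finset

variable {n : ℕ}

/-- Two distinct `k`-sets meet in at most `k - 1` elements. -/
theorem inter_card_lt {k : ℕ} {e f : Finset (Fin n)} (he : e.card = k) (hf : f.card = k)
    (hne : e ≠ f) : (e ∩ f).card < k := by
  have h1 : (e ∩ f).card ≤ e.card := card_le_card inter_subset_left
  rcases lt_or_eq_of_le h1 with h | h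
  · omega
  · exfalso
    have h2 : e ∩ f = e := eq_of_subset_of_card_le inter_subset_left (le_of_eq h.symm)
    have h3 : e ⊆ f := by rw [← h2]; exact inter_subset_right
    exact hne (eq_of_subset_of_card_le h3 (by omega))

/-- The `(k-1)`-sets lying under a family. -/
def shadow (k : ℕ) (M : Finset (Finset (Fin n))) : Finset (Finset (Fin n)) :=
  M.biUnion fun m => m.powersetCard (k - 1)

theorem mem_shadow {k : ℕ} {M : Finset (Finset (Fin n))} {S : Finset (Fin n)} :
    S ∈ shadow k M ↔ ∃ m ∈ M, S ⊆ m ∧ S.card = k - 1 := by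
  simp [shadow, mem_powersetCard]

/-- The members of `H` outside `M` which meet `m` in `k-1` elements and every other member of `M`
in fewer. -/
def singles (k : ℕ) (H M : Finset (Finset (Fin n))) (m : Finset (Fin n)) :
    Finset (Finset (Fin n)) :=
  (H \ M).filter fun f => k - 1 ≤ (m ∩ f).card ∧ ∀ m' ∈ M, m' ≠ m → (m' ∩ f).card < k - 1

theorem mem_singles {k : ℕ} {H M : Finset (Finset (Fin n))} {m f : Finset (Fin n)} :
    f ∈ singles k H M m ↔ (f ∈ H ∧ f ∉ M) ∧ k - 1 ≤ (m ∩ f).card ∧
      ∀ m' ∈ M, m' ≠ m → (m' ∩ f).card < k - 1 := by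
  simp [singles]

/-- The local estimate at one member of the packing. -/
theorem local_bound {k : ℕ} (hk : 2 ≤ k) {m : Finset (Fin n)} (hm : m.card = k)
    {A : Finset (Finset (Fin n))} (hA : ∀ f ∈ A, f.card = k) (hmA : m ∉ A)
    (hadj : ∀ f ∈ A, k - 1 ≤ (m ∩ f).card)
    (hpair : ∀ f ∈ A, ∀ g ∈ A, f ≠ g → k - 1 ≤ (f ∩ g).card)
    {a : Finset (Fin n) → ℝ} (ha : ∀ f, 0 ≤ a f)
    (hcap : ∀ S : Finset (Fin n), S.card = k - 1 → ∀ B ⊆ insert m A, (∀ f ∈ B, S ⊆ f) →
      ∑ f ∈ B, a f ≤ 1)
    (hle : ∀ f ∈ A, a f ≤ a m) :
    ∑ f ∈ A, a f ≤ 1 + ((k : ℝ) - 2) * a m := by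
  have hk' : (2 : ℝ) ≤ k := by exact_mod_cast hk
  -- coordinates of a member of `A`
  have hco : ∀ f ∈ A, ∃ x y, x ∈ m ∧ y ∉ m ∧ f = insert y (m.erase x) := by
    intro f hf
    have hne : m ≠ f := fun h => hmA (h ▸ hf)
    have h1 := inter_card_lt hm (hA f hf) hne
    have h2 := hadj f hf
    have h3 : (m ∩ f).card = k - 1 := by omega
    have h4 : (m \ f).card = 1 := by
      have := card_sdiff_add_card_inter m f
      omega
    have h5 : (f \ m).card = 1 := by
      have := card_sdiff_add_card_inter f m
      rw [inter_comm f m] at this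
      have := hA f hf
      omega
    obtain ⟨x, hx⟩ := card_eq_one.mp h4
    obtain ⟨y, hy⟩ := card_eq_one.mp h5
    have hxm : x ∈ m \ f := by rw [hx]; exact mem_singleton_self x
    have hyf : y ∈ f \ m := by rw [hy]; exact mem_singleton_self y
    rw [mem_sdiff] at hxm hyf
    refine ⟨x, y, hxm.1, hyf.2, ?_⟩
    ext z
    simp only [mem_insert, mem_erase]
    constructor
    · intro hz
      by_cases hzm : z ∈ m
      · right
        exact ⟨fun h => hxm.2 (h ▸ hz), hzm⟩
      · left
        have : z ∈ f \ m := mem_sdiff.mpr ⟨hz, hzm⟩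
        rw [hy] at this
        exact mem_singleton.mp this
    · rintro (rfl | ⟨hzx, hzm⟩)
      · exact hyf.1
      · by_contra hzf
        have : z ∈ m \ f := mem_sdiff.mpr ⟨hzm, hzf⟩
        rw [hx] at this
        exact hzx (mem_singleton.mp this)
  have : Nonempty (Fin n) := by
    have : m.Nonempty := card_pos.mp (by omega)
    exact ⟨this.choose⟩
  choose! X Y hX hY hXY using hco
  -- two members share a coordinate
  have hshare : ∀ f ∈ A, ∀ g ∈ A, X f = X g ∨ Y f = Y g := by
    intro f hf g hg
    by_contra hcon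
    push Not at hcon
    have hne : f ≠ g := fun h => hcon.1 (by rw [h])
    have h1 := hpair f hf g hg hne
    -- the intersection is contained in `m` minus two points
    have h2 : f ∩ g ⊆ (m.erase (X f)).erase (X g) := by
      intro z hz
      rw [mem_inter] at hz
      have hzf := hz.1
      have hzg := hz.2
      rw [hXY f hf, mem_insert, mem_erase] at hzf
      rw [hXY g hg, mem_insert, mem_erase] at hzg
      rw [mem_erase, mem_erase]
      rcases hzf with rfl | ⟨h3, h4⟩
      · rcases hzg with h5 | ⟨_, h6⟩
        · exact absurd h5 hcon.2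
        · exact absurd h6 (hY f hf)
      · rcases hzg with rfl | ⟨h5, h6⟩
        · exact absurd h4 (hY g hg)
        · exact ⟨h5, h3, h4⟩
    have h3 := card_le_card h2
    have h4 : X g ∈ m.erase (X f) := mem_erase.mpr ⟨fun h => hcon.1 h.symm, hX g hg⟩
    rw [card_erase_of_mem h4, card_erase_of_mem (hX f hf), hm] at h3
    omega
  by_cases hrow : ∀ f ∈ A, ∀ g ∈ A, X f = X g
  · -- star
    rcases A.eq_empty_or_nonempty with rfl | ⟨f0, hf0⟩
    · simp only [sum_empty]
      have := mul_nonneg (sub_nonneg.mpr hk') (ha m)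
      linarith
    · set S := m.erase (X f0) with hS
      have hScard : S.card = k - 1 := by rw [hS, card_erase_of_mem (hX f0 hf0), hm]
      have h1 := hcap S hScard (insert m A) (Subset.refl _) (by
        intro f hf
        rcases mem_insert.mp hf with rfl | hf
        · exact erase_subset _ _
        · rw [hXY f hf, ← hrow f0 hf0 f hf]
          exact subset_insert _ _)
      rw [sum_insert hmA] at h1
      nlinarith [ha m]
  · -- all members have the same `Y`
    push Not at hrow
    obtain ⟨f1, hf1, f2, hf2, h12⟩ := hrow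
    have hY12 : Y f1 = Y f2 := by
      rcases hshare f1 hf1 f2 hf2 with h | h
      · exact absurd h h12
      · exact h
    have hYall : ∀ g ∈ A, Y g = Y f1 := by
      intro g hg
      by_contra hcon
      have h1 : X g = X f1 := (hshare g hg f1 hf1).resolve_right hcon
      have h2 : X g = X f2 := (hshare g hg f2 hf2).resolve_right (fun h => hcon (h.trans hY12.symm))
      exact h12 (h1.symm.trans h2)
    have hinj : Set.InjOn X A := by
      intro f hf g hg h
      have hf' : f ∈ A := hf
      have hg' : g ∈ A := hg
      rw [hXY f hf', hXY g hg', h, hYall f hf', hYall g hg']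
    have hcard : A.card ≤ k := by
      rw [← hm]
      exact card_le_card_of_injOn X (fun f hf => hX f hf) hinj
    have hone : ∀ f ∈ A, a f + a m ≤ 1 := by
      intro f hf
      have hScard : (m.erase (X f)).card = k - 1 := by rw [card_erase_of_mem (hX f hf), hm]
      have hfm : f ≠ m := fun h => hmA (h ▸ hf)
      have := hcap (m.erase (X f)) hScard {f, m} (by
        intro g hg
        rcases mem_insert.mp hg with rfl | hg
        · exact mem_insert_of_mem hf
        · rw [mem_singleton.mp hg]; exact mem_insert_self _ _) (by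
        intro g hg
        rcases mem_insert.mp hg with rfl | hg
        · conv_rhs => rw [hXY g hf]
          exact subset_insert _ _
        · rw [mem_singleton.mp hg]; exact erase_subset _ _)
      rwa [sum_pair hfm] at this
    have hcard' : (A.card : ℝ) ≤ k := by exact_mod_cast hcard
    rcases le_total (a m) (1 / 2) with h | h
    · have h1 : ∑ f ∈ A, a f ≤ A.card * a m := by
        calc ∑ f ∈ A, a f ≤ ∑ _f ∈ A, a m := sum_le_sum hle
          _ = A.card * a m := by rw [sum_const, nsmul_eq_mul]
      have h2 : (A.card : ℝ) * a m ≤ k * a m := mul_le_mul_of_nonneg_right hcard' (ha m)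
      nlinarith
    · by_cases h1m : a m ≤ 1
      · have h1 : ∑ f ∈ A, a f ≤ A.card * (1 - a m) := by
          calc ∑ f ∈ A, a f ≤ ∑ _f ∈ A, (1 - a m) := sum_le_sum (fun f hf => by
                linarith [hone f hf])
            _ = A.card * (1 - a m) := by rw [sum_const, nsmul_eq_mul]
        have h2 : (A.card : ℝ) * (1 - a m) ≤ k * (1 - a m) :=
          mul_le_mul_of_nonneg_right hcard' (by linarith)
        nlinarith
      · exfalso
        have := hone f1 hf1
        have := ha f1
        linarith

/-- A largest packing which is heaviest among the largest packings gives the bound. -/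
theorem primal {k : ℕ} (hk : 2 ≤ k) {H M : Finset (Finset (Fin n))} (hH : ∀ e ∈ H, e.card = k)
    {a : Finset (Fin n) → ℝ} (ha : ∀ f, 0 ≤ a f)
    (hcap : ∀ S : Finset (Fin n), S.card = k - 1 → ∑ f ∈ H.filter (fun f => S ⊆ f), a f ≤ 1)
    (hM : IsPacking k H M) (hmax : ∀ N, IsPacking k H N → N.card ≤ M.card)
    (hheavy : ∀ N, IsPacking k H N → N.card = M.card → ∑ f ∈ N, a f ≤ ∑ f ∈ M, a f) :
    2 * ∑ f ∈ H, a f ≤ ((k : ℝ) + 1) * M.card := by
  classical
  have hk' : (2 : ℝ) ≤ k := by exact_mod_cast hk
  obtain ⟨hMH, hMp⟩ := hM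
  have hMcard : ∀ m ∈ M, m.card = k := fun m hm => hH m (hMH hm)
  -- number of shadow sets below `f`
  set D := shadow k M with hD
  set c : Finset (Fin n) → ℕ := fun f => (D.filter fun S => S ⊆ f).card with hc
  -- double counting
  have hcount : ∑ f ∈ H, (c f : ℝ) * a f ≤ k * M.card := by
    have h1 : ∑ f ∈ H, (c f : ℝ) * a f = ∑ S ∈ D, ∑ f ∈ H.filter (fun f => S ⊆ f), a f := by
      have h2 : ∀ f ∈ H, (c f : ℝ) * a f = ∑ S ∈ D, if S ⊆ f then a f else 0 := by
        intro f _
        rw [← sum_filter, sum_const, nsmul_eq_mul]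
      rw [sum_congr rfl h2, sum_comm]
      refine sum_congr rfl fun S _ => ?_
      rw [sum_filter]
    have h3 : D.card ≤ k * M.card := by
      calc D.card ≤ ∑ m ∈ M, (m.powersetCard (k - 1)).card := card_biUnion_le
        _ = ∑ m ∈ M, k := by
            refine sum_congr rfl fun m hm => ?_
            rw [card_powersetCard, hMcard m hm]
            have : k.choose (k - 1) = k := by
              rw [← Nat.choose_symm (Nat.sub_le k 1)]
              rw [Nat.sub_sub_self (by omega)]
              exact Nat.choose_one_right k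
            exact this
        _ = k * M.card := by rw [sum_const, smul_eq_mul, mul_comm]
    rw [h1]
    calc ∑ S ∈ D, ∑ f ∈ H.filter (fun f => S ⊆ f), a f ≤ ∑ _S ∈ D, (1 : ℝ) := by
          refine sum_le_sum fun S hS => hcap S ?_
          obtain ⟨m, _, _, h⟩ := mem_shadow.mp hS
          exact h
      _ = D.card := by simp
      _ ≤ k * M.card := by exact_mod_cast h3
  -- members of the packing
  have hcM : ∀ m ∈ M, (k : ℝ) ≤ c m := by
    intro m hm
    have h1 : m.powersetCard (k - 1) ⊆ D.filter fun S => S ⊆ m := by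
      intro S hS
      rw [mem_powersetCard] at hS
      exact mem_filter.mpr ⟨mem_shadow.mpr ⟨m, hm, hS.1, hS.2⟩, hS.1⟩
    have h2 := card_le_card h1
    rw [card_powersetCard, hMcard m hm] at h2
    have h3 : k.choose (k - 1) = k := by
      rw [← Nat.choose_symm (Nat.sub_le k 1)]
      rw [Nat.sub_sub_self (by omega)]
      exact Nat.choose_one_right k
    rw [h3] at h2
    exact_mod_cast h2
  -- every edge outside the packing meets some member
  have hmeet : ∀ f ∈ H, f ∉ M → ∃ m ∈ M, k - 1 ≤ (m ∩ f).card := by
    intro f hf hfM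
    by_contra hcon
    push Not at hcon
    have hp : IsPacking k H (insert f M) := by
      refine ⟨insert_subset hf hMH, ?_⟩
      intro e he g hg hne
      rcases mem_insert.mp he with h1 | h1
      · rcases mem_insert.mp hg with h2 | h2
        · exact absurd (h1.trans h2.symm) hne
        · rw [inter_comm, h1]; exact hcon g h2
      · rcases mem_insert.mp hg with h2 | h2
        · rw [h2]; exact hcon e h1
        · exact hMp e h1 g h2 hne
    have := hmax _ hp
    rw [card_insert_of_notMem hfM] at this
    omega
  -- pointwise inequality outside the packing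
  have hpt : ∀ f ∈ H \ M, a f * (2 - (c f : ℝ)) ≤
      ∑ m ∈ M, if f ∈ singles k H M m then a f else 0 := by
    intro f hf
    rw [mem_sdiff] at hf
    obtain ⟨m, hm, hmf⟩ := hmeet f hf.1 hf.2
    have hne : ∀ m' ∈ M, m' ≠ f := fun m' hm' h => hf.2 (h ▸ hm')
    have hint : ∀ m' ∈ M, k - 1 ≤ (m' ∩ f).card → (m' ∩ f).card = k - 1 := by
      intro m' hm' h
      have := inter_card_lt (hMcard m' hm') (hH f hf.1) (hne m' hm')
      omega
    have hSm : ∀ m' ∈ M, k - 1 ≤ (m' ∩ f).card → m' ∩ f ∈ D.filter fun S => S ⊆ f := by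
      intro m' hm' h
      exact mem_filter.mpr ⟨mem_shadow.mpr ⟨m', hm', inter_subset_left, hint m' hm' h⟩,
        inter_subset_right⟩
    by_cases hs : f ∈ singles k H M m
    · have h1 : (1 : ℝ) ≤ c f := by
        have : 0 < c f := card_pos.mpr ⟨_, hSm m hm hmf⟩
        exact_mod_cast this
      calc a f * (2 - (c f : ℝ)) ≤ a f * 1 := mul_le_mul_of_nonneg_left (by linarith) (ha f)
        _ = if f ∈ singles k H M m then a f else 0 := by rw [if_pos hs, mul_one]
        _ ≤ ∑ m ∈ M, if f ∈ singles k H M m then a f else 0 :=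
            single_le_sum (f := fun m => if f ∈ singles k H M m then a f else 0)
              (fun m' _ => by split_ifs <;> [exact ha f; exact le_refl _]) hm
    · have h2 : (2 : ℝ) ≤ c f := by
        have : ∃ m' ∈ M, m' ≠ m ∧ k - 1 ≤ (m' ∩ f).card := by
          by_contra hcon
          push Not at hcon
          exact hs (mem_singles.mpr ⟨hf, hmf, fun m' hm' h => hcon m' hm' h⟩)
        obtain ⟨m', hm', hmm, hmf'⟩ := this
        have hne' : m ∩ f ≠ m' ∩ f := by
          intro h
          have h3 := hMp m hm m' hm' (Ne.symm hmm)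
          have h4 : m ∩ f ⊆ m ∩ m' := by
            refine subset_inter inter_subset_left ?_
            rw [h]; exact inter_subset_left
          have h5 := card_le_card h4
          have := hint m hm hmf
          omega
        have : 2 ≤ c f := by
          have h6 : ({m ∩ f, m' ∩ f} : Finset (Finset (Fin n))) ⊆ D.filter fun S => S ⊆ f := by
            intro S hS
            rcases mem_insert.mp hS with rfl | hS
            · exact hSm m hm hmf
            · rw [mem_singleton.mp hS]; exact hSm m' hm' hmf'
          have h7 := card_le_card h6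
          rwa [card_pair hne'] at h7
        exact_mod_cast this
      calc a f * (2 - (c f : ℝ)) ≤ 0 := mul_nonpos_of_nonneg_of_nonpos (ha f) (by linarith)
        _ ≤ ∑ m ∈ M, if f ∈ singles k H M m then a f else 0 :=
            sum_nonneg fun m' _ => by split_ifs <;> [exact ha f; exact le_refl _]
  -- local bounds
  have hloc : ∀ m ∈ M, ∑ f ∈ singles k H M m, a f ≤ 1 + ((k : ℝ) - 2) * a m := by
    intro m hm
    refine local_bound hk (hMcard m hm) (fun f hf => hH f (mem_singles.mp hf).1.1)
      (fun h => (mem_singles.mp h).1.2 hm) (fun f hf => (mem_singles.mp hf).2.1) ?_ ha ?_ ?_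
    · -- two singles are adjacent
      intro f hf g hg hne
      by_contra hcon
      push Not at hcon
      obtain ⟨⟨hfH, hfM⟩, hmf, hfo⟩ := mem_singles.mp hf
      obtain ⟨⟨hgH, hgM⟩, hmg, hgo⟩ := mem_singles.mp hg
      have hp : IsPacking k H (insert f (insert g (M.erase m))) := by
        refine ⟨insert_subset hfH (insert_subset hgH ((erase_subset _ _).trans hMH)), ?_⟩
        intro e he e' he' hee
        rcases mem_insert.mp he with h1 | h1
        · rcases mem_insert.mp he' with h2 | h2
          · exact absurd (h1.trans h2.symm) hee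
          · rcases mem_insert.mp h2 with h3 | h3
            · rw [h1, h3]; exact hcon
            · rw [inter_comm, h1]; exact hfo e' (mem_of_mem_erase h3) (ne_of_mem_erase h3)
        · rcases mem_insert.mp h1 with h4 | h4
          · rcases mem_insert.mp he' with h2 | h2
            · rw [inter_comm, h2, h4]; exact hcon
            · rcases mem_insert.mp h2 with h3 | h3
              · exact absurd (h4.trans h3.symm) hee
              · rw [inter_comm, h4]; exact hgo e' (mem_of_mem_erase h3) (ne_of_mem_erase h3)
          · rcases mem_insert.mp he' with h2 | h2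
            · rw [h2]; exact hfo e (mem_of_mem_erase h4) (ne_of_mem_erase h4)
            · rcases mem_insert.mp h2 with h3 | h3
              · rw [h3]; exact hgo e (mem_of_mem_erase h4) (ne_of_mem_erase h4)
              · exact hMp e (mem_of_mem_erase h4) e' (mem_of_mem_erase h3) hee
      have h1 := hmax _ hp
      rw [card_insert_of_notMem, card_insert_of_notMem, card_erase_of_mem hm] at h1
      · have : 0 < M.card := card_pos.mpr ⟨m, hm⟩
        omega
      · exact fun h => hgM (mem_of_mem_erase h)
      · intro h
        rcases mem_insert.mp h with h | h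
        · exact hne h
        · exact hfM (mem_of_mem_erase h)
    · -- capacity
      intro S hS B hB hSB
      refine le_trans (sum_le_sum_of_subset_of_nonneg ?_ (fun f _ _ => ha f)) (hcap S hS)
      intro f hf
      refine mem_filter.mpr ⟨?_, hSB f hf⟩
      rcases mem_insert.mp (hB hf) with rfl | h
      · exact hMH hm
      · exact (mem_singles.mp h).1.1
    · -- swapping
      intro f hf
      obtain ⟨⟨hfH, hfM⟩, hmf, hfo⟩ := mem_singles.mp hf
      have hp : IsPacking k H (insert f (M.erase m)) := by
        refine ⟨insert_subset hfH ((erase_subset _ _).trans hMH), ?_⟩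
        intro e he e' he' hee
        rcases mem_insert.mp he with h1 | h1
        · rcases mem_insert.mp he' with h2 | h2
          · exact absurd (h1.trans h2.symm) hee
          · rw [inter_comm, h1]; exact hfo e' (mem_of_mem_erase h2) (ne_of_mem_erase h2)
        · rcases mem_insert.mp he' with h2 | h2
          · rw [h2]; exact hfo e (mem_of_mem_erase h1) (ne_of_mem_erase h1)
          · exact hMp e (mem_of_mem_erase h1) e' (mem_of_mem_erase h2) hee
      have hnot : f ∉ M.erase m := fun h => hfM (mem_of_mem_erase h)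
      have hcardN : (insert f (M.erase m)).card = M.card := by
        rw [card_insert_of_notMem hnot, card_erase_of_mem hm]
        have : 0 < M.card := card_pos.mpr ⟨m, hm⟩
        omega
      have h1 := hheavy _ hp hcardN
      rw [sum_insert hnot, ← add_sum_erase M a hm] at h1
      linarith
  -- summation
  have hsplit : ∑ f ∈ H, a f * (2 - (c f : ℝ)) ≤ M.card := by
    rw [← sum_sdiff hMH]
    have h1 : ∑ f ∈ H \ M, a f * (2 - (c f : ℝ)) ≤ ∑ m ∈ M, ∑ f ∈ singles k H M m, a f := by
      calc ∑ f ∈ H \ M, a f * (2 - (c f : ℝ))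
          ≤ ∑ f ∈ H \ M, ∑ m ∈ M, (if f ∈ singles k H M m then a f else 0) := sum_le_sum hpt
        _ = ∑ m ∈ M, ∑ f ∈ H \ M, (if f ∈ singles k H M m then a f else 0) := sum_comm
        _ = ∑ m ∈ M, ∑ f ∈ singles k H M m, a f := by
            refine sum_congr rfl fun m _ => ?_
            rw [← sum_filter]
            refine sum_congr ?_ fun _ _ => rfl
            ext f
            simp only [mem_filter, mem_sdiff]
            constructor
            · exact fun h => h.2
            · exact fun h => ⟨(mem_singles.mp h).1, h⟩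
    have h2 : ∑ f ∈ M, a f * (2 - (c f : ℝ)) ≤ ∑ m ∈ M, (2 - (k : ℝ)) * a m := by
      refine sum_le_sum fun m hm => ?_
      nlinarith [hcM m hm, ha m]
    have h3 : ∑ m ∈ M, ∑ f ∈ singles k H M m, a f ≤ ∑ m ∈ M, (1 + ((k : ℝ) - 2) * a m) :=
      sum_le_sum hloc
    calc ∑ f ∈ H \ M, a f * (2 - (c f : ℝ)) + ∑ f ∈ M, a f * (2 - (c f : ℝ))
        ≤ ∑ m ∈ M, (1 + ((k : ℝ) - 2) * a m) + ∑ m ∈ M, (2 - (k : ℝ)) * a m :=
          add_le_add (h1.trans h3) h2
      _ = ∑ _m ∈ M, (1 : ℝ) := by
          rw [← sum_add_distrib]
          exact sum_congr rfl fun m _ => by ring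
      _ = M.card := by simp
  have h4 : ∑ f ∈ H, a f * (2 - (c f : ℝ)) = 2 * ∑ f ∈ H, a f - ∑ f ∈ H, (c f : ℝ) * a f := by
    rw [mul_sum, ← sum_sub_distrib]
    exact sum_congr rfl fun f _ => by ring
  rw [h4] at hsplit
  linarith

end Pool.Agent.Helper37.FracTuza
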