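import Mathlib
import Pool.Agent.Helper37.FracTuza.Defs
import Pool.Agent.Helper37.FracTuza.Dual
import Pool.Agent.Helper37.FracTuza.Primal

/-!
The fractional cover of weight at most `(k+1)/2` times the packing number, and sharpness.
-/

namespace Pool.Agent.Helper37.FracTuza

open Finset

theorem exists_cover {k : ℕ} (hk : 2 ≤ k) {n : ℕ} (H : Finset (Finset (Fin n)))
    (hH : ∀ e ∈ H, e.card = k) :
    ∃ (M : Finset (Finset (Fin n))) (w : Finset (Fin n) → ℝ), IsPacking k H M ∧
      IsFractionalCover k H w ∧ totalWeight k w ≤ ((k : ℝ) + 1) / 2 * M.card := by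
  classical
  set P : Finset (Finset (Finset (Fin n))) := H.powerset.filter fun M => IsPacking k H M with hP
  have hmemP : ∀ M, M ∈ P ↔ IsPacking k H M := by
    intro M
    simp only [hP, mem_filter, mem_powerset, and_iff_right_iff_imp]
    exact fun h => h.1
  have hempty : IsPacking k H ∅ := ⟨empty_subset _, by simp⟩
  obtain ⟨M₀, hM₀P, hM₀⟩ := exists_max_image P card ⟨∅, (hmemP _).mpr hempty⟩
  have hM₀' := (hmemP _).mp hM₀P
  have hmax : ∀ N, IsPacking k H N → N.card ≤ M₀.card := fun N hN => hM₀ N ((hmemP N).mpr hN)
  rcases H.eq_empty_or_nonempty with hHe | ⟨e₀, he₀⟩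
  · refine ⟨M₀, fun _ => 0, hM₀', ⟨fun _ => le_refl _, by simp [hHe]⟩, ?_⟩
    have : (0 : ℝ) ≤ M₀.card := Nat.cast_nonneg _
    have hk' : (0 : ℝ) ≤ k := Nat.cast_nonneg _
    simp only [totalWeight, sum_const_zero]
    positivity
  have hpos : 0 < M₀.card := by
    have : IsPacking k H {e₀} := by
      refine ⟨singleton_subset_iff.mpr he₀, ?_⟩
      intro e he f hf hne
      rw [mem_singleton] at he hf
      exact absurd (he.trans hf.symm) hne
    have := hmax _ this
    simpa using this
  have hposR : (0 : ℝ) < M₀.card := by exact_mod_cast hpos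
  -- the primal bound
  have hprimal : ∀ a : {e // e ∈ H} → ℝ, (∀ i, 0 ≤ a i) →
      (∀ S : {S // S ∈ (Finset.univ : Finset (Fin n)).powersetCard (k - 1)},
        ∑ i, a i * (if S.1 ⊆ i.1 then (1 : ℝ) else 0) ≤ 1) →
      ∑ i, a i ≤ ((k : ℝ) + 1) / 2 * M₀.card := by
    intro a ha hcap
    set b : Finset (Fin n) → ℝ := fun f => if h : f ∈ H then a ⟨f, h⟩ else 0 with hb
    have hb0 : ∀ f, 0 ≤ b f := by
      intro f
      simp only [hb]
      split_ifs
      · exact ha _
      · exact le_refl _
    have hbs : ∀ i : {e // e ∈ H}, b i.1 = a i := by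
      intro i
      simp [hb, i.2]
    obtain ⟨M, hMP, hM⟩ := exists_max_image (P.filter fun M => M.card = M₀.card)
      (fun M => ∑ f ∈ M, b f) ⟨M₀, mem_filter.mpr ⟨hM₀P, rfl⟩⟩
    rw [mem_filter, hmemP] at hMP
    have h1 := primal hk (H := H) (M := M) hH hb0 (by
      intro S hS
      have h2 := hcap ⟨S, mem_powersetCard.mpr ⟨subset_univ _, hS⟩⟩
      have h3 : ∑ f ∈ H.filter (fun f => S ⊆ f), b f
          = ∑ i : {e // e ∈ H}, a i * (if S ⊆ i.1 then (1 : ℝ) else 0) := by
        rw [sum_filter]
        rw [← sum_coe_sort H (fun f => if S ⊆ f then b f else 0)]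
        refine sum_congr rfl fun i _ => ?_
        split_ifs
        · rw [hbs, mul_one]
        · rw [mul_zero]
      rw [h3]
      exact h2) hMP.1 (fun N hN => by rw [hMP.2]; exact hmax N hN)
      (fun N hN hc => hM N (mem_filter.mpr ⟨(hmemP N).mpr hN, by rw [hc, hMP.2]⟩))
    have h4 : ∑ f ∈ H, b f = ∑ i, a i := by
      rw [← sum_coe_sort H b]
      exact sum_congr rfl fun i _ => hbs i
    rw [h4, hMP.2] at h1
    linarith
  obtain ⟨w, hw0, hw1, hw2⟩ := lp_dual
    (fun (i : {e // e ∈ H}) (S : {S // S ∈ (Finset.univ : Finset (Fin n)).powersetCard (k - 1)}) =>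
      if S.1 ⊆ i.1 then (1 : ℝ) else 0)
    (((k : ℝ) + 1) / 2 * M₀.card) (by positivity) hprimal
  set v : Finset (Fin n) → ℝ := fun S =>
    if h : S ∈ (Finset.univ : Finset (Fin n)).powersetCard (k - 1) then w ⟨S, h⟩ else 0 with hv
  have hvw : ∀ S : {S // S ∈ (Finset.univ : Finset (Fin n)).powersetCard (k - 1)},
      v S.1 = w S := by
    intro S
    simp only [hv]
    rw [dif_pos S.2]
  refine ⟨M₀, v, hM₀', ⟨?_, ?_⟩, ?_⟩
  · intro S
    simp only [hv]
    split_ifs
    · exact hw0 _
    · exact le_refl _
  · intro e he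
    have h1 := hw1 ⟨e, he⟩
    have h2 : ∑ S ∈ e.powersetCard (k - 1), v S
        = ∑ S ∈ (Finset.univ : Finset (Fin n)).powersetCard (k - 1),
            (if S ⊆ e then (1 : ℝ) else 0) * v S := by
      have h3 : e.powersetCard (k - 1)
          = ((Finset.univ : Finset (Fin n)).powersetCard (k - 1)).filter (fun S => S ⊆ e) := by
        ext S
        simp only [mem_powersetCard, mem_filter, subset_univ, true_and]
        exact and_comm
      rw [h3, sum_filter]
      refine sum_congr rfl fun S _ => ?_
      split_ifs <;> simp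
    rw [h2, ← sum_coe_sort _ (fun S => (if S ⊆ e then (1 : ℝ) else 0) * v S)]
    simp_rw [hvw]
    exact h1
  · rw [totalWeight, ← sum_coe_sort _ v]
    simp_rw [hvw]
    exact hw2

/-- In the complete `k`-uniform hypergraph on `k+1` vertices a packing has at most one member. -/
theorem complete_packing {k : ℕ} (hk : 1 ≤ k) (M : Finset (Finset (Fin (k + 1))))
    (hM : IsPacking k ((Finset.univ : Finset (Fin (k + 1))).powersetCard k) M) : M.card ≤ 1 := by
  rw [card_le_one]
  intro e he f hf
  by_contra hne
  have h1 := hM.2 e he f hf hne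
  have h2 := (mem_powersetCard.mp (hM.1 he)).2
  have h3 := (mem_powersetCard.mp (hM.1 hf)).2
  have h4 := card_union_add_card_inter e f
  have h5 : (e ∪ f).card ≤ k + 1 := by
    have := card_le_univ (e ∪ f)
    simpa using this
  omega

/-- A fractional cover of the complete `k`-uniform hypergraph on `k+1` vertices has total weight at
least `(k+1)/2`. -/
theorem complete_cover {k : ℕ} (hk : 1 ≤ k) (w : Finset (Fin (k + 1)) → ℝ)
    (hw : IsFractionalCover k ((Finset.univ : Finset (Fin (k + 1))).powersetCard k) w) :
    ((k : ℝ) + 1) / 2 ≤ totalWeight k w := by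
  classical
  obtain ⟨hw0, hw1⟩ := hw
  have h1 : ((k : ℝ) + 1) ≤ ∑ e ∈ (Finset.univ : Finset (Fin (k + 1))).powersetCard k,
      ∑ S ∈ e.powersetCard (k - 1), w S := by
    calc ((k : ℝ) + 1) = ∑ _e ∈ (Finset.univ : Finset (Fin (k + 1))).powersetCard k, (1 : ℝ) := by
          rw [sum_const, card_powersetCard, card_univ, Fintype.card_fin, Nat.choose_succ_self_right,
            nsmul_eq_mul, mul_one]
          push_cast
          ring
      _ ≤ _ := sum_le_sum hw1
  have h2 : ∑ e ∈ (Finset.univ : Finset (Fin (k + 1))).powersetCard k,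
      ∑ S ∈ e.powersetCard (k - 1), w S = 2 * totalWeight k w := by
    have h3 : ∀ e ∈ (Finset.univ : Finset (Fin (k + 1))).powersetCard k,
        ∑ S ∈ e.powersetCard (k - 1), w S
          = ∑ S ∈ (Finset.univ : Finset (Fin (k + 1))).powersetCard (k - 1),
              if S ⊆ e then w S else 0 := by
      intro e _
      rw [← sum_filter]
      refine sum_congr ?_ fun _ _ => rfl
      ext S
      simp only [mem_powersetCard, mem_filter, subset_univ, true_and]
      exact and_comm
    rw [sum_congr rfl h3, sum_comm, totalWeight, mul_sum]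
    refine sum_congr rfl fun S hS => ?_
    rw [mem_powersetCard] at hS
    rw [← sum_filter, sum_const, nsmul_eq_mul]
    congr 1
    -- exactly two `k`-sets contain `S`
    have h4 : (((Finset.univ : Finset (Fin (k + 1))).powersetCard k).filter fun e => S ⊆ e).card
        = 2 := by
      have h5 : (((Finset.univ : Finset (Fin (k + 1))).powersetCard k).filter fun e => S ⊆ e)
          = (Sᶜ).image fun x => insert x S := by
        ext e
        simp only [mem_filter, mem_powersetCard, subset_univ, true_and, mem_image, mem_compl]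
        constructor
        · rintro ⟨h6, h7⟩
          have h8 : (e \ S).card = 1 := by
            rw [card_sdiff_of_subset h7, h6, hS.2]; omega
          obtain ⟨x, hx⟩ := card_eq_one.mp h8
          have hxe : x ∈ e \ S := by rw [hx]; exact mem_singleton_self x
          rw [mem_sdiff] at hxe
          refine ⟨x, hxe.2, ?_⟩
          ext z
          rw [mem_insert]
          constructor
          · rintro (rfl | h)
            · exact hxe.1
            · exact h7 h
          · intro hz
            by_cases hzS : z ∈ S
            · exact Or.inr hzS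
            · left
              have : z ∈ e \ S := mem_sdiff.mpr ⟨hz, hzS⟩
              rw [hx] at this
              exact mem_singleton.mp this
        · rintro ⟨x, hx, rfl⟩
          refine ⟨?_, subset_insert _ _⟩
          rw [card_insert_of_notMem hx, hS.2]
          omega
      rw [h5, card_image_of_injOn, card_compl, Fintype.card_fin, hS.2]
      · omega
      · intro x hx y hy hxy
        have hx' : x ∉ S := by simpa using hx
        have hxy' : insert x S = insert y S := hxy
        have h6 : x ∈ insert y S := by rw [← hxy']; exact mem_insert_self _ _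
        rcases mem_insert.mp h6 with h | h
        · exact h
        · exact absurd h hx'
    rw [h4]
    norm_num
  rw [h2] at h1
  linarith

end Pool.Agent.Helper37.FracTuza
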